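import Mathlib
import Pool.Agent.Helper75.LP.Defs

/-!
# Lebesgue phases: the sets `Ph`
-/

set_option autoImplicit false

open MeasureTheory Finset Filter

namespace Pool.Agent.Helper40.LPA

open Pool.Agent.Helper61.FR Helper75.LP

theorem isOpen_Ph (M : ℕ → ℕ) (n q : ℕ) : IsOpen (Ph M n q) := by
  have e1 : Ph M n q = ⋃ ν : Measure Tor, ⋃ (_ : Half ν), ⋂ m ∈ Finset.Icc (-(n : ℤ)) n,
      {x | ‖cavg (M q) (2 ^ q) m x - ∫ y, (fourier m y : ℂ) ∂ν‖ < 1 / (n + 1)} := by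
    ext x
    simp only [Set.mem_iUnion, Set.mem_iInter, exists_prop]
    constructor
    · rintro ⟨ν, hν, h⟩
      refine ⟨ν, hν, fun m hm => ?_⟩
      rw [Finset.mem_Icc] at hm
      exact h m (abs_le.mpr hm)
    · rintro ⟨ν, hν, h⟩
      refine ⟨ν, hν, fun m hm => ?_⟩
      exact h m (Finset.mem_Icc.mpr (abs_le.mp hm))
  rw [e1]
  refine isOpen_iUnion fun ν => isOpen_iUnion fun _ => isOpen_biInter_finset fun m _ => ?_
  exact isOpen_lt (((continuous_cavg _ _ _).sub continuous_const).norm) continuous_const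

theorem Ph_anti (M : ℕ → ℕ) {n n' : ℕ} (h : n ≤ n') (q : ℕ) : Ph M n' q ⊆ Ph M n q := by
  rintro x ⟨ν, hν, hx⟩
  refine ⟨ν, hν, fun m hm => (hx m (hm.trans (by exact_mod_cast h))).trans_le ?_⟩
  have h1 : (n : ℝ) ≤ n' := by exact_mod_cast h
  exact one_div_le_one_div_of_le (by positivity) (by linarith)

private lemma fourier_nsmul (s : ℕ) (m : ℤ) (x : Tor) :
    (fourier m (s • x) : ℂ) = fourier (m * s) x := by
  rw [fourier_apply, fourier_apply, ← natCast_zsmul, smul_smul]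

theorem norm_cavg_two (M N : ℕ) (m : ℤ) (x : Tor) :
    ‖cavg M N m ((2 : ℕ) • x) - cavg M N m x‖ ≤ 2 / M := by
  rcases Nat.eq_zero_or_pos M with rfl | hM
  · simp [cavg]
  rcases Nat.eq_zero_or_pos N with rfl | hN
  · simp only [cavg, Finset.range_zero, Finset.sum_empty, Finset.sum_const_zero, zero_div,
      sub_zero, norm_zero]
    positivity
  have hM0 : (0 : ℝ) < M := by exact_mod_cast hM
  have hN0 : (0 : ℝ) < N := by exact_mod_cast hN
  obtain ⟨f, hf⟩ : ∃ f : ℕ → ℂ, f = fun i => ∑ k ∈ range N, (fourier (m * (2 ^ i * 3 ^ k)) x : ℂ) :=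
    ⟨_, rfl⟩
  have hfn : ∀ i, ‖f i‖ ≤ N := by
    intro i
    rw [hf]
    refine (norm_sum_le _ _).trans ?_
    refine (Finset.sum_le_card_nsmul _ _ 1 fun k _ => ?_).trans ?_
    · exact (Circle.norm_coe _).le
    · simp
  have e1 : cavg M N m ((2 : ℕ) • x) - cavg M N m x = (f M - f 0) / (M * N) := by
    unfold cavg
    rw [← sub_div, ← Finset.sum_sub_distrib, ← Finset.sum_range_sub f M]
    congr 1
    refine Finset.sum_congr rfl fun i _ => ?_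
    rw [hf]
    simp only
    congr 1
    refine Finset.sum_congr rfl fun k _ => ?_
    rw [fourier_nsmul]
    have e2 : m * (2 ^ i * 3 ^ k) * ((2 : ℕ) : ℤ) = m * (2 ^ (i + 1) * 3 ^ k) := by
      push_cast
      ring
    rw [e2]
  rw [e1, norm_div]
  have h1 : ‖(M : ℂ) * N‖ = M * N := by simp
  rw [h1, div_le_div_iff₀ (by positivity) hM0]
  have h2 : ‖f M - f 0‖ ≤ 2 * N := (norm_sub_le _ _).trans (by linarith [hfn M, hfn 0])
  nlinarith

theorem norm_cavg_three (M N : ℕ) (m : ℤ) (x : Tor) :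
    ‖cavg M N m ((3 : ℕ) • x) - cavg M N m x‖ ≤ 2 / N := by
  rcases Nat.eq_zero_or_pos M with rfl | hM
  · simp only [cavg, Finset.range_zero, Finset.sum_empty, zero_div, sub_zero, norm_zero]
    positivity
  rcases Nat.eq_zero_or_pos N with rfl | hN
  · simp [cavg]
  have hM0 : (0 : ℝ) < M := by exact_mod_cast hM
  have hN0 : (0 : ℝ) < N := by exact_mod_cast hN
  have hf1 : ∀ i k : ℕ, ‖(fourier (m * (2 ^ i * 3 ^ k)) x : ℂ)‖ ≤ 1 := fun i k =>
    (Circle.norm_coe _).le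
  have e1 : cavg M N m ((3 : ℕ) • x) - cavg M N m x =
      (∑ i ∈ range M, ((fourier (m * (2 ^ i * 3 ^ N)) x : ℂ) -
        (fourier (m * (2 ^ i * 3 ^ 0)) x : ℂ))) / (M * N) := by
    unfold cavg
    rw [← sub_div, ← Finset.sum_sub_distrib]
    congr 1
    refine Finset.sum_congr rfl fun i _ => ?_
    rw [← Finset.sum_range_sub (fun k => (fourier (m * (2 ^ i * 3 ^ k)) x : ℂ)) N,
      ← Finset.sum_sub_distrib]
    refine Finset.sum_congr rfl fun k _ => ?_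
    rw [fourier_nsmul]
    have e2 : m * (2 ^ i * 3 ^ k) * ((3 : ℕ) : ℤ) = m * (2 ^ i * 3 ^ (k + 1)) := by
      push_cast
      ring
    rw [e2]
  rw [e1, norm_div]
  have h1 : ‖(M : ℂ) * N‖ = M * N := by simp
  rw [h1, div_le_div_iff₀ (by positivity) hN0]
  have h2 : ‖∑ i ∈ range M, ((fourier (m * (2 ^ i * 3 ^ N)) x : ℂ) -
        (fourier (m * (2 ^ i * 3 ^ 0)) x : ℂ))‖ ≤ M * 2 := by
    refine (norm_sum_le _ _).trans ?_
    refine (Finset.sum_le_card_nsmul _ _ 2 fun i _ => ?_).trans (by simp)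
    exact (norm_sub_le _ _).trans (by linarith [hf1 i N, hf1 i 0])
  nlinarith

private lemma mem_of_close (M : ℕ → ℕ) (n q : ℕ) (x y : Tor)
    (hd : ∀ m : ℤ, ‖cavg (M q) (2 ^ q) m y - cavg (M q) (2 ^ q) m x‖ ≤ 1 / (2 * (n + 1)))
    (hy : y ∈ Ph M (2 * n + 1) q) : x ∈ Ph M n q := by
  obtain ⟨ν, hν, h⟩ := hy
  refine ⟨ν, hν, fun m hm => ?_⟩
  have h1 := h m (hm.trans (by push_cast; omega))
  have h2 := hd m
  have h3 : (1 : ℝ) / ((2 * n + 1 : ℕ) + 1) = 1 / (2 * (n + 1)) := by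
    push_cast
    congr 1
    ring
  rw [h3] at h1
  have h4 : cavg (M q) (2 ^ q) m x - ∫ z, (fourier m z : ℂ) ∂ν =
      (cavg (M q) (2 ^ q) m y - ∫ z, (fourier m z : ℂ) ∂ν) -
      (cavg (M q) (2 ^ q) m y - cavg (M q) (2 ^ q) m x) := by ring
  rw [h4]
  have h5 : (1 : ℝ) / (n + 1) = 1 / (2 * (n + 1)) + 1 / (2 * (n + 1)) := by
    field_simp
    ring
  rw [h5]
  exact (norm_sub_le _ _).trans_lt (add_lt_add_of_lt_of_le h1 h2)

theorem mem_of_two (M : ℕ → ℕ) (n q : ℕ) (hq : 4 * (n + 1) ≤ M q) (x : Tor)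
    (hx : (2 : ℕ) • x ∈ Ph M (2 * n + 1) q) : x ∈ Ph M n q := by
  refine mem_of_close M n q x _ (fun m => (norm_cavg_two _ _ m x).trans ?_) hx
  have h1 : (4 * (n + 1) : ℝ) ≤ M q := by exact_mod_cast hq
  have h2 : (0 : ℝ) < 4 * (n + 1) := by positivity
  rw [div_le_div_iff₀ (by linarith) (by positivity)]
  linarith

theorem mem_of_three (M : ℕ → ℕ) (n q : ℕ) (hq : 4 * (n + 1) ≤ 2 ^ q) (x : Tor)
    (hx : (3 : ℕ) • x ∈ Ph M (2 * n + 1) q) : x ∈ Ph M n q := by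
  refine mem_of_close M n q x _ (fun m => (norm_cavg_three _ _ m x).trans ?_) hx
  have h1 : (4 * (n + 1) : ℝ) ≤ ((2 ^ q : ℕ) : ℝ) := by exact_mod_cast hq
  have h2 : (0 : ℝ) < 4 * (n + 1) := by positivity
  rw [div_le_div_iff₀ (by linarith) (by positivity)]
  linarith

/-- the points which have no phase of quality `n` after the scale `q₀` -/
def NoPh (M : ℕ → ℕ) (n q₀ : ℕ) : Set Tor :=
  {x | ∀ q, q₀ ≤ q → ∀ i, i ≤ 2 ^ q → (2 ^ i : ℕ) • x ∉ Ph M n q}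

theorem isClosed_NoPh (M : ℕ → ℕ) (n q₀ : ℕ) : IsClosed (NoPh M n q₀) := by
  have e1 : NoPh M n q₀ = ⋂ q : ℕ, ⋂ (_ : q₀ ≤ q), ⋂ i : ℕ, ⋂ (_ : i ≤ 2 ^ q),
      (fun x : Tor => (2 ^ i : ℕ) • x) ⁻¹' (Ph M n q)ᶜ := by
    ext x
    simp only [NoPh, Set.mem_ofPred_eq, Set.mem_iInter, Set.mem_preimage, Set.mem_compl_iff]
  rw [e1]
  refine isClosed_iInter fun q => isClosed_iInter fun _ => isClosed_iInter fun i =>
    isClosed_iInter fun _ => ?_
  exact (isOpen_Ph M n q).isClosed_compl.preimage (continuous_const_smul _)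

theorem NoPh_mono (M : ℕ → ℕ) {n n' q₀ q₁ : ℕ} (h : n ≤ n') (h' : q₀ ≤ q₁) :
    NoPh M n q₀ ⊆ NoPh M n' q₁ := by
  intro x hx q hq i hi hm
  exact hx q (h'.trans hq) i hi (Ph_anti M h q hm)

theorem NoPh_two (M : ℕ → ℕ) (n q₀ q₁ : ℕ) (h : q₀ ≤ q₁) (hM : ∀ q, q₁ ≤ q → 4 * (n + 1) ≤ M q)
    (x : Tor) (hx : x ∈ NoPh M n q₀) : (2 : ℕ) • x ∈ NoPh M (2 * n + 1) q₁ := by
  intro q hq i hi hm
  apply hx q (h.trans hq) i hi
  apply mem_of_two M n q (hM q hq)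
  rwa [smul_comm]

theorem NoPh_three (M : ℕ → ℕ) (n q₀ q₁ : ℕ) (h : q₀ ≤ q₁)
    (hM : ∀ q, q₁ ≤ q → 4 * (n + 1) ≤ 2 ^ q)
    (x : Tor) (hx : x ∈ NoPh M n q₀) : (3 : ℕ) • x ∈ NoPh M (2 * n + 1) q₁ := by
  intro q hq i hi hm
  apply hx q (h.trans hq) i hi
  apply mem_of_three M n q (hM q hq)
  rwa [smul_comm]

end Pool.Agent.Helper40.LPA
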