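import Mathlib
import Pool.Agent.Helper40.TMA.Stage3G
import Pool.Agent.Helper40.LPA.Stage3V
import Pool.Agent.Helper40.LPA.Ph
import Pool.Agent.Helper75.LP.St.L6

/-!
# Lebesgue phases: measures on `[0, 1)` without atoms
-/

set_option autoImplicit false

open MeasureTheory Finset Filter

namespace Pool.Agent.Helper40.LPA

open Pool.Agent.Helper61.FR Helper75.LP Helper75.DF
open Pool.Agent.Helper40.TMA (stage3G)

/-- the points of the line without phase -/
def Gd (M : ℕ → ℕ) (n q : ℕ) : Set ℝ := {x | (x : Tor) ∉ Ph M n q}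

lemma fract_mem_Gd (M : ℕ → ℕ) (n q : ℕ) (x : ℝ) : Int.fract x ∈ Gd M n q ↔ x ∈ Gd M n q := by
  have h1 : ((Int.fract x : ℝ) : Tor) = (x : Tor) := by
    have h2 : ((⌊x⌋ : ℝ) : Tor) = 0 := (AddCircle.coe_eq_zero_iff 1).2 ⟨⌊x⌋, by simp⟩
    have h3 := congrArg (fun y : ℝ => (y : Tor)) (Int.floor_add_fract x)
    simp only [AddCircle.coe_add, h2, zero_add] at h3
    exact h3
  show ((Int.fract x : ℝ) : Tor) ∉ _ ↔ _
  rw [h1]
  rfl

lemma measurableSet_Gd (M : ℕ → ℕ) (n q : ℕ) : MeasurableSet (Gd M n q) := by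
  have h1 : IsClosed (Gd M n q) :=
    (isOpen_Ph M n q).isClosed_compl.preimage (AddCircle.continuous_mk' _)
  exact h1.measurableSet

/-- Points without phases on the whole past: impossible. -/
theorem false_of_past {μ : Measure ℝ} (h : Inv23 μ) (h0 : ∀ x, μ {x} = 0) (M W : ℕ → ℕ)
    (hM : Tendsto M atTop atTop) (hW : Window W)
    (hMW : ∀ n₀ : ℕ, ∃ q₁ : ℕ, ∀ q, q₁ ≤ q → M q + n₀ ≤ W q ∧ M q + n₀ ≤ 2 ^ q) (n q₁ : ℕ)
    (hgood : ∀ N : ℕ, 3 / 4 ≤ μ.real {x | ∀ q, q₁ ≤ q → ∀ i, i ≤ N → i ≤ 5 * 2 ^ q →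
      Int.fract (2 ^ (N - i) * x) ∈ Gd M n q}) : False := by
  have := h.prob
  obtain ⟨r, hr⟩ := two_point M W hM hW n
  obtain ⟨q₂, hq₂⟩ := hMW (r + 1)
  have hc := stage3G h (q₁ + q₂ + r) (fun q => M q + (r + 1)) (fun q hq => by
      show 1 ≤ M q + (r + 1)
      omega) (fun q hq => (hq₂ q (by omega)).2) (Gd M n) (fract_mem_Gd M n) ?_ ?_
  · exact false_of_arcs h0 hc
  · intro q hq d τ x hd hτ hx hx'
    obtain ⟨h1, -⟩ := hq₂ q (by omega)
    rcases hr q (by omega) (M q + (r + 1)) (by omega) h1 d hd τ x hτ with h2 | h2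
    · exact hx h2
    · exact hx' h2
  · intro N
    refine (hgood N).trans (measureReal_mono ?_ (measure_ne_top μ _))
    intro x hx q hq i hin hi
    exact hx q (by omega) i hin hi

/-- Summable probabilities of phases: impossible. -/
theorem false_of_summable {μ : Measure ℝ} (h : Inv23 μ) (h0 : ∀ x, μ {x} = 0) (M W : ℕ → ℕ)
    (hM : Tendsto M atTop atTop) (hW : Window W) (hWm : Monotone W)
    (hW2 : ∀ q, W q ≤ 2 ^ (q + 1))
    (hMW : ∀ n₀ : ℕ, ∃ q₁ : ℕ, ∀ q, q₁ ≤ q → 4 * (M q + n₀) ≤ W q) (n : ℕ)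
    (hs : Summable fun q : ℕ => (2 ^ q / W q : ℝ) * μ.real (Gd M n q)ᶜ) : False := by
  have := h.prob
  obtain ⟨r, hr⟩ := two_point M W hM hW n
  obtain ⟨q₂, hq₂⟩ := hMW (r + 1)
  obtain ⟨N, hN⟩ := exists_tail hs (fun q => by positivity) (1 / 128) (by norm_num)
  have hc := stage3V h (N + q₂ + r) (fun q => M q + (r + 1)) W (fun q hq => by
      show 1 ≤ M q + (r + 1)
      omega) hWm (fun q hq => hq₂ q (by omega)) (fun q _ => hW2 q) (Gd M n)
      (measurableSet_Gd M n) (fract_mem_Gd M n) ?_ ?_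
  · exact false_of_arcs h0 hc
  · intro q hq k d τ x h1 h2 hd hτ hx hx'
    rcases hr q (by omega) k (by omega) h2 d hd τ x hτ with h3 | h3
    · exact hx h3
    · exact hx' h3
  · intro Q
    exact hN _ (by omega) Q

end Pool.Agent.Helper40.LPA
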