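import Mathlib
import Pool.Agent.Helper40.LPA.Core
import Pool.Agent.Helper40.TMA.CircleForm
import Pool.Agent.Helper75.LP.St.L7
import Pool.Agent.Helper75.LP.St.L8

/-!
# Lebesgue phases: ergodic measures on the circle without atoms
-/

set_option autoImplicit false

open MeasureTheory Finset Filter Topology

namespace Pool.Agent.Helper40.LPA

open Helper58.FX (ft Erg T)
open Pool.Agent.Helper61.FR Helper75.LP Helper75.DF
open Pool.Agent.Helper40.TMA (nsmul_coe)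

/-- An ergodic measure without atoms has Lebesgue phases almost everywhere along the moving thin
boxes. -/
theorem phases_ae {ν : Measure Tor} [IsProbabilityMeasure ν]
    (h2 : MeasurePreserving (fun x : Tor => (2 : ℕ) • x) ν ν)
    (h3 : MeasurePreserving (fun x : Tor => (3 : ℕ) • x) ν ν) (hE : Erg (ft ν))
    (h0 : ∀ x, ν {x} = 0) (M W : ℕ → ℕ)
    (hM : Tendsto M atTop atTop) (hW : Window W)
    (hMW : ∀ n₀ : ℕ, ∃ q₁ : ℕ, ∀ q, q₁ ≤ q → M q + n₀ ≤ W q ∧ M q + n₀ ≤ 2 ^ q) :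
    ∀ᵐ x ∂ν, ∀ n : ℕ, ∃ q, n ≤ q ∧ ∃ i, i ≤ 2 ^ q ∧ (2 ^ i : ℕ) • x ∈ Ph M n q := by
  have hmono : Monotone fun n : ℕ => NoPh M n n := fun a b hab => NoPh_mono M hab hab
  have hmeas : ∀ n, MeasurableSet (NoPh M n n) := fun n => (isClosed_NoPh M n n).measurableSet
  obtain ⟨U, hU⟩ : ∃ U : Set Tor, U = ⋃ n, NoPh M n n := ⟨_, rfl⟩
  have hUm : MeasurableSet U := by
    rw [hU]
    exact MeasurableSet.iUnion hmeas
  have hU2 : U ⊆ T 2 ⁻¹' U := by
    intro x hx
    rw [hU, Set.mem_iUnion] at hx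
    obtain ⟨n, hx⟩ := hx
    obtain ⟨q₁, hq₁⟩ := eventually_atTop.mp (hM.eventually_ge_atTop (4 * (n + 1)))
    show (2 : ℕ) • x ∈ U
    rw [hU, Set.mem_iUnion]
    refine ⟨2 * n + 1 + q₁, ?_⟩
    have h5 := NoPh_two M n n (2 * n + 1 + q₁) (by omega) (fun q hq => hq₁ q (by omega)) x hx
    exact NoPh_mono M (by omega) le_rfl h5
  have hU3 : U ⊆ T 3 ⁻¹' U := by
    intro x hx
    rw [hU, Set.mem_iUnion] at hx
    obtain ⟨n, hx⟩ := hx
    show (3 : ℕ) • x ∈ U
    rw [hU, Set.mem_iUnion]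
    refine ⟨4 * n + 4, ?_⟩
    have h5 := NoPh_three M n n (4 * n + 4) (by omega) (fun q hq => by
      have : q < 2 ^ q := Nat.lt_two_pow_self
      omega) x hx
    exact NoPh_mono M (by omega) le_rfl h5
  rcases erg_sets h2 h3 hE U hUm hU2 hU3 with h4 | h4
  · have h5 : ∀ᵐ x ∂ν, x ∉ U := by
      rw [ae_iff]
      simpa using h4
    filter_upwards [h5] with x hx n
    have hx' : x ∉ NoPh M n n := fun h => hx (by rw [hU, Set.mem_iUnion]; exact ⟨n, h⟩)
    unfold NoPh at hx'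
    simp only [Set.mem_ofPred_eq, not_forall, not_not] at hx'
    obtain ⟨q, hq, i, hi, h6⟩ := hx'
    exact ⟨q, hq, i, hi, h6⟩
  · exfalso
    have h5 : Tendsto (fun n => ν (NoPh M n n)) atTop (𝓝 1) := by
      have := tendsto_measure_iUnion_atTop (μ := ν) hmono
      rwa [← hU, h4] at this
    obtain ⟨n, hn⟩ := (h5.eventually (lt_mem_nhds
      (show ENNReal.ofReal (31 / 32) < 1 by
        rw [← ENNReal.ofReal_one]
        exact (ENNReal.ofReal_lt_ofReal_iff one_pos).2 (by norm_num)))).exists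
    obtain ⟨μ, hμ, hν, hat⟩ := exists_inv23 ν h2 h3
    have hprob := hμ.prob
    have h6 : ν.real (NoPh M n n)ᶜ ≤ 1 / 32 := by
      rw [probReal_compl_eq_one_sub (hmeas n)]
      have h7 : (31 / 32 : ℝ) ≤ ν.real (NoPh M n n) := by
        rw [measureReal_def]
        have := ENNReal.toReal_mono (measure_ne_top ν _) hn.le
        rwa [ENNReal.toReal_ofReal (by norm_num)] at this
      linarith
    have h8 : {x : ℝ | ∀ q, n ≤ q → ∀ i, i ≤ 2 ^ q → 2 ^ i * x ∈ Gd M n q} =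
        (fun x : ℝ => (x : Tor)) ⁻¹' NoPh M n n := by
      ext x
      show (∀ q, n ≤ q → ∀ i, i ≤ 2 ^ q → ((2 ^ i * x : ℝ) : Tor) ∉ Ph M n q) ↔
        (∀ q, n ≤ q → ∀ i, i ≤ 2 ^ q → (2 ^ i : ℕ) • (x : Tor) ∉ Ph M n q)
      simp only [nsmul_coe]
    have h9 : μ.real {x : ℝ | ∀ q, n ≤ q → ∀ i, i ≤ 2 ^ q → 2 ^ i * x ∈ Gd M n q}ᶜ ≤ 1 / 32 := by
      rw [h8, ← Set.preimage_compl, measureReal_def,
        ← Measure.map_apply measurable_coe_circle (hmeas n).compl, hν]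
      exact h6
    exact false_of_past hμ (hat h0) M W hM hW hMW n n fun N =>
      past_general hμ (Gd M n) (measurableSet_Gd M n) (fract_mem_Gd M n) n h9 N

/-- For a measure without atoms the probabilities of the phases are not summable with the weights
`2 ^ q / W q`. -/
theorem not_summable_phases {ν : Measure Tor} [IsProbabilityMeasure ν]
    (h2 : MeasurePreserving (fun x : Tor => (2 : ℕ) • x) ν ν)
    (h3 : MeasurePreserving (fun x : Tor => (3 : ℕ) • x) ν ν)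
    (h0 : ∀ x, ν {x} = 0) (M W : ℕ → ℕ)
    (hM : Tendsto M atTop atTop) (hW : Window W) (hWm : Monotone W)
    (hW2 : ∀ q, W q ≤ 2 ^ (q + 1))
    (hMW : ∀ n₀ : ℕ, ∃ q₁ : ℕ, ∀ q, q₁ ≤ q → 4 * (M q + n₀) ≤ W q) (n : ℕ) :
    ¬ Summable fun q : ℕ => (2 ^ q / W q : ℝ) * ν.real (Ph M n q) := by
  intro hs
  obtain ⟨μ, hμ, hν, hat⟩ := exists_inv23 ν h2 h3
  refine false_of_summable hμ (hat h0) M W hM hW hWm hW2 hMW n ?_
  refine hs.congr fun q => ?_
  congr 1
  have h4 : (Gd M n q)ᶜ = (fun x : ℝ => (x : Tor)) ⁻¹' Ph M n q := by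
    ext x
    exact not_not
  rw [h4, measureReal_def, measureReal_def,
    ← Measure.map_apply measurable_coe_circle (isOpen_Ph M n q).measurableSet, hν]

end Pool.Agent.Helper40.LPA
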