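import Mathlib
import Pool.Agent.Helper40.LPA.CircleL
import Pool.Agent.Helper17.KW.Window

/-!
# Lebesgue phases: boxes of width at most `q ^ γ`, `γ < 3 / 2`
-/

set_option autoImplicit false

open MeasureTheory Finset Filter Topology

namespace Pool.Agent.Helper40.LPA

open Helper58.FX (ft Erg T)
open Pool.Agent.Helper61.FR Helper75.LP Helper75.DF
open Pool.Agent.Helper17.KW (wing wing_mono wing_le wing_le_two_pow window_wing)

/-- room in a larger window -/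
theorem exists_wing {γ : ℝ} (hγ : γ < 3 / 2) : ∃ γ' : ℝ, 1 ≤ γ' ∧ γ' < 3 / 2 ∧
    ∀ r : ℕ, ∃ q₁ : ℕ, ∀ q : ℕ, q₁ ≤ q → (q : ℝ) ^ γ ≤ wing γ' q ∧
      ∀ M : ℕ, (M : ℝ) ≤ (q : ℝ) ^ γ → 4 * (M + r) ≤ wing γ' q := by
  obtain ⟨g, hg⟩ : ∃ g, g = max γ 1 := ⟨_, rfl⟩
  have hg1 : 1 ≤ g := hg ▸ le_max_right _ _
  have hgγ : γ ≤ g := hg ▸ le_max_left _ _
  have hg2 : g < 3 / 2 := by
    rw [hg]
    exact max_lt hγ (by norm_num)
  obtain ⟨g', hg'⟩ : ∃ g', g' = (g + 3 / 2) / 2 := ⟨_, rfl⟩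
  refine ⟨g', by linarith, by linarith, fun r => ?_⟩
  have h1 : Tendsto (fun q : ℕ => (q : ℝ) ^ (g' - g)) atTop atTop :=
    (tendsto_rpow_atTop (by linarith)).comp tendsto_natCast_atTop_atTop
  obtain ⟨q₁, hq₁⟩ := eventually_atTop.mp (h1.eventually_ge_atTop (4 + (4 * r + 1)))
  refine ⟨q₁ + 1, fun q hq => ?_⟩
  have hq1 : (1 : ℝ) ≤ q := by exact_mod_cast (by omega : 1 ≤ q)
  have h2 := hq₁ q (by omega)
  have h3 : (1 : ℝ) ≤ (q : ℝ) ^ g := Real.one_le_rpow hq1 (by linarith)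
  have h4 : (q : ℝ) ^ γ ≤ (q : ℝ) ^ g := Real.rpow_le_rpow_of_exponent_le hq1 hgγ
  have h5 : (q : ℝ) ^ g' = (q : ℝ) ^ g * (q : ℝ) ^ (g' - g) := by
    rw [← Real.rpow_add (by linarith)]
    congr 1
    ring
  have hr : (0 : ℝ) ≤ r := Nat.cast_nonneg r
  have h6 : 4 * (q : ℝ) ^ g + (4 * r + 1) ≤ (q : ℝ) ^ g' := by
    rw [h5]
    nlinarith
  have h7 : (q : ℝ) ^ g' < wing g' q + 1 := Nat.lt_floor_add_one _
  refine ⟨by linarith, fun M hM => ?_⟩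
  have h8 : ((4 * (M + r) : ℕ) : ℝ) ≤ (wing g' q : ℝ) := by
    push_cast
    linarith
  exact_mod_cast h8

/-- An ergodic measure without atoms has Lebesgue phases almost everywhere along moving boxes of
width at most `q ^ γ`, `γ < 3 / 2`. -/
theorem phases_ae_gamma {ν : Measure Tor} [IsProbabilityMeasure ν]
    (h2 : MeasurePreserving (fun x : Tor => (2 : ℕ) • x) ν ν)
    (h3 : MeasurePreserving (fun x : Tor => (3 : ℕ) • x) ν ν) (hE : Erg (ft ν))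
    (h0 : ∀ x, ν {x} = 0) {γ : ℝ} (hγ : γ < 3 / 2) (M : ℕ → ℕ)
    (hM : Tendsto M atTop atTop) (hMγ : ∀ᶠ q : ℕ in atTop, (M q : ℝ) ≤ (q : ℝ) ^ γ) :
    ∀ᵐ x ∂ν, ∀ n : ℕ, ∃ q, n ≤ q ∧ ∃ i, i ≤ 2 ^ q ∧ (2 ^ i : ℕ) • x ∈ Ph M n q := by
  obtain ⟨γ', h1, h1', hw⟩ := exists_wing hγ
  obtain ⟨q₂, hq₂⟩ := eventually_atTop.mp hMγ
  refine phases_ae h2 h3 hE h0 M (wing γ') hM (window_wing h1') fun n₀ => ?_
  obtain ⟨q₁, hq₁⟩ := hw n₀
  refine ⟨q₁ + q₂, fun q hq => ?_⟩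
  have h5 := (hq₁ q (by omega)).2 (M q) (hq₂ q (by omega))
  have h6 := wing_le_two_pow h1 (by linarith) q
  have h7 : 2 ^ (q + 1) = 2 * 2 ^ q := by ring
  constructor <;> omega

/-- For a measure without atoms the probabilities of the phases are not summable with the weights
`2 ^ q / q ^ γ`. -/
theorem not_summable_gamma {ν : Measure Tor} [IsProbabilityMeasure ν]
    (h2 : MeasurePreserving (fun x : Tor => (2 : ℕ) • x) ν ν)
    (h3 : MeasurePreserving (fun x : Tor => (3 : ℕ) • x) ν ν)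
    (h0 : ∀ x, ν {x} = 0) {γ : ℝ} (hγ : γ < 3 / 2) (M : ℕ → ℕ)
    (hM : Tendsto M atTop atTop) (hMγ : ∀ᶠ q : ℕ in atTop, (M q : ℝ) ≤ (q : ℝ) ^ γ) (n : ℕ) :
    ¬ Summable fun q : ℕ => (2 ^ q / (q : ℝ) ^ γ) * ν.real (Ph M n q) := by
  obtain ⟨γ', h1, h1', hw⟩ := exists_wing hγ
  obtain ⟨q₂, hq₂⟩ := eventually_atTop.mp hMγ
  intro hs
  refine not_summable_phases h2 h3 h0 M (wing γ') hM (window_wing h1') (wing_mono (by linarith))
    (wing_le_two_pow h1 (by linarith)) (fun n₀ => ?_) n ?_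
  · obtain ⟨q₁, hq₁⟩ := hw n₀
    exact ⟨q₁ + q₂, fun q hq => (hq₁ q (by omega)).2 (M q) (hq₂ q (by omega))⟩
  · obtain ⟨q₁, hq₁⟩ := hw 0
    rw [← summable_nat_add_iff (q₁ + 1)] at hs ⊢
    refine Summable.of_nonneg_of_le (fun _ => by positivity) (fun q => ?_) hs
    have h5 := (hq₁ (q + (q₁ + 1)) (by omega)).1
    have h6 : (0 : ℝ) < ((q + (q₁ + 1) : ℕ) : ℝ) ^ γ :=
      Real.rpow_pos_of_pos (by exact_mod_cast (by omega : 0 < q + (q₁ + 1))) _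
    refine mul_le_mul_of_nonneg_right ?_ measureReal_nonneg
    exact div_le_div_of_nonneg_left (by positivity) h6 h5

end Pool.Agent.Helper40.LPA
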