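import Mathlib
import Pool.Agent.Helper75.LP.Defs

/-!
# Measures which dominate one half of Lebesgue measure, and limits of phases
-/

set_option autoImplicit false

open MeasureTheory Finset Filter Topology

namespace Pool.Agent.Helper40.LPA

open Pool.Agent.Helper61.FR Helper75.LP

lemma integral_fourier_volume (m : ℤ) (hm : m ≠ 0) :
    ∫ x, (fourier m x : ℂ) ∂(volume : Measure Tor) = 0 :=
  Helper17.TranslM.integral_fourier_vol hm

/-- The Fourier coefficients of a measure above one half of Lebesgue measure are at most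
`1 / 2`. -/
theorem norm_half_le {ν : Measure Tor} (hν : Half ν) (m : ℤ) (hm : m ≠ 0) :
    ‖∫ x, (fourier m x : ℂ) ∂ν‖ ≤ 1 / 2 := by
  obtain ⟨hp, hle⟩ := hν
  obtain ⟨κ, hκ⟩ : ∃ κ : Measure Tor, κ = (2 : ENNReal) • ν - volume := ⟨_, rfl⟩
  have hfin : IsFiniteMeasure ((2 : ENNReal) • ν) := ν.smul_finite (by norm_num)
  have h1 : κ + volume = (2 : ENNReal) • ν := by
    rw [hκ]
    exact Measure.sub_add_cancel_of_le hle
  have hκf : IsFiniteMeasure κ := by
    rw [hκ]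
    infer_instance
  have h2 : κ Set.univ = 1 := by
    have h3 := congrArg (fun ρ : Measure Tor => ρ Set.univ) h1
    simp only [Measure.add_apply, Measure.smul_apply, smul_eq_mul, measure_univ, mul_one] at h3
    have h4 : (2 : ENNReal) = 1 + 1 := by norm_num
    rw [h4] at h3
    exact (ENNReal.add_left_inj ENNReal.one_ne_top).1 h3
  have hint : ∀ ρ : Measure Tor, IsFiniteMeasure ρ → Integrable (fun x => (fourier m x : ℂ)) ρ := by
    intro ρ _
    exact Helper17.TranslM.integrable_cont ρ (fourier m).continuous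
  have h5 : ∫ x, (fourier m x : ℂ) ∂(κ + volume) = 2 * ∫ x, (fourier m x : ℂ) ∂ν := by
    rw [h1, integral_smul_measure]
    simp
  rw [integral_add_measure (hint κ hκf) (hint _ inferInstance), integral_fourier_volume m hm,
    add_zero] at h5
  have h6 : ‖∫ x, (fourier m x : ℂ) ∂κ‖ ≤ 1 := by
    refine (norm_integral_le_integral_norm _).trans ?_
    have h7 : ∀ x : Tor, ‖(fourier m x : ℂ)‖ = 1 := fun x => Circle.norm_coe _
    simp only [h7, integral_const, smul_eq_mul, mul_one, measureReal_def, h2, ENNReal.toReal_one]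
    exact le_rfl
  rw [h5, norm_mul, Complex.norm_ofNat] at h6
  linarith

/-- Limits of measures above one half of Lebesgue measure. -/
theorem half_of_tendsto {U : Filter ℕ} [U.NeBot] {νs : ℕ → ProbabilityMeasure Tor}
    {ν : ProbabilityMeasure Tor} (h : ∀ n, Half (νs n : Measure Tor)) (hl : Tendsto νs U (𝓝 ν)) :
    Half (ν : Measure Tor) := by
  refine ⟨inferInstance, ?_⟩
  rw [Measure.le_iff]
  intro s hs
  rw [hs.measure_eq_iSup_isClosed_of_ne_top (measure_ne_top _ _)]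
  refine iSup_le fun F => iSup_le fun hFs => iSup_le fun hF => ?_
  have h1 := ProbabilityMeasure.limsup_measure_closed_le_of_tendsto hl hF
  have h2 : (volume : Measure Tor) F / 2 ≤ limsup (fun i => (νs i : Measure Tor) F) U := by
    refine le_limsup_of_frequently_le ?_ (by isBoundedDefault)
    refine Eventually.frequently (Eventually.of_forall fun i => ?_)
    have h3 := (h i).2 F
    rw [Measure.smul_apply, smul_eq_mul] at h3
    rw [ENNReal.div_le_iff (by norm_num) (by norm_num), mul_comm]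
    exact h3
  have h4 : (volume : Measure Tor) F ≤ 2 * (ν : Measure Tor) F := by
    have h5 := h2.trans h1
    rw [ENNReal.div_le_iff (by norm_num) (by norm_num), mul_comm] at h5
    exact h5
  rw [Measure.smul_apply, smul_eq_mul]
  exact h4.trans (by gcongr)

/-- `x` has a Lebesgue phase: a probability measure above one half of Lebesgue measure is a limit
point of the averages over the boxes at the points `2 ^ i x`. -/
def LimPh (M : ℕ → ℕ) (x : Tor) : Prop :=
  ∃ ν : Measure Tor, Half ν ∧ ∀ n : ℕ, ∃ q, n ≤ q ∧ ∃ i, i ≤ 2 ^ q ∧ ∀ m : ℤ, |m| ≤ n →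
    ‖cavg (M q) (2 ^ q) m ((2 ^ i : ℕ) • x) - ∫ y, (fourier m y : ℂ) ∂ν‖ < 1 / (n + 1)

theorem limPh_of (M : ℕ → ℕ) (x : Tor)
    (h : ∀ n : ℕ, ∃ q, n ≤ q ∧ ∃ i, i ≤ 2 ^ q ∧ (2 ^ i : ℕ) • x ∈ Ph M n q) : LimPh M x := by
  choose q hq i hi hPh using h
  choose ν hν hclose using hPh
  obtain ⟨νs, hνs⟩ : ∃ νs : ℕ → ProbabilityMeasure Tor, νs = fun n => ⟨ν n, (hν n).1⟩ := ⟨_, rfl⟩
  have hνs' : ∀ n, ((νs n : ProbabilityMeasure Tor) : Measure Tor) = ν n := by
    intro n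
    rw [hνs]
    rfl
  obtain ⟨U, hU⟩ : ∃ U : Ultrafilter ℕ, U = hyperfilter ℕ := ⟨_, rfl⟩
  have hUa : (U : Filter ℕ) ≤ atTop := by
    rw [hU, ← Nat.cofinite_eq_atTop]
    exact hyperfilter_le_cofinite
  obtain ⟨ρ, -, hρ⟩ := isCompact_univ.ultrafilter_le_nhds (U.map νs) (by simp)
  have hl : Tendsto νs U (𝓝 ρ) := hρ
  have hH : Half (ρ : Measure Tor) := half_of_tendsto (fun n => by rw [hνs']; exact hν n) hl
  refine ⟨ρ, hH, fun n => ?_⟩
  have hint : ∀ m : ℤ, Tendsto (fun j => ∫ y, (fourier m y : ℂ) ∂(ν j)) U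
      (𝓝 (∫ y, (fourier m y : ℂ) ∂(ρ : Measure Tor))) := by
    intro m
    have h5 := (ProbabilityMeasure.tendsto_iff_forall_integral_rclike_tendsto ℂ).1 hl
      (BoundedContinuousFunction.mkOfCompact (fourier m))
    simp only [BoundedContinuousFunction.mkOfCompact_apply, hνs'] at h5
    exact h5
  have h6 : ∀ᶠ j in (U : Filter ℕ), ∀ m ∈ Finset.Icc (-(n : ℤ)) n,
      dist (∫ y, (fourier m y : ℂ) ∂(ν j)) (∫ y, (fourier m y : ℂ) ∂(ρ : Measure Tor)) <
        1 / (2 * (n + 1)) := by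
    rw [Filter.eventually_all_finset]
    intro m _
    exact (Metric.tendsto_nhds.1 (hint m)) _ (by positivity)
  obtain ⟨j, hj1, hj2⟩ := (h6.and (hUa (eventually_ge_atTop (2 * n + 1)))).exists
  refine ⟨q j, by have := hq j; omega, i j, hi j, fun m hm => ?_⟩
  have h7 := hclose j m (hm.trans (by exact_mod_cast (by omega : n ≤ j)))
  have h8 := hj1 m (Finset.mem_Icc.mpr (abs_le.mp hm))
  rw [dist_eq_norm] at h8
  have h9 : (1 : ℝ) / (j + 1) ≤ 1 / (2 * (n + 1)) := by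
    apply one_div_le_one_div_of_le (by positivity)
    have : ((2 * n + 1 : ℕ) : ℝ) ≤ j := by exact_mod_cast hj2
    push_cast at this
    linarith
  have h10 : cavg (M (q j)) (2 ^ (q j)) m ((2 ^ (i j) : ℕ) • x) -
      ∫ y, (fourier m y : ℂ) ∂(ρ : Measure Tor) =
      (cavg (M (q j)) (2 ^ (q j)) m ((2 ^ (i j) : ℕ) • x) - ∫ y, (fourier m y : ℂ) ∂(ν j)) +
      (∫ y, (fourier m y : ℂ) ∂(ν j) - ∫ y, (fourier m y : ℂ) ∂(ρ : Measure Tor)) := by ring
  rw [h10]
  have h11 : (1 : ℝ) / (n + 1) = 1 / (2 * (n + 1)) + 1 / (2 * (n + 1)) := by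
    field_simp
    ring
  rw [h11]
  exact (norm_add_le _ _).trans_lt (add_lt_add_of_le_of_lt (h7.le.trans h9) h8)

theorem of_limPh (M : ℕ → ℕ) (x : Tor) (h : LimPh M x) (n : ℕ) :
    ∃ q, n ≤ q ∧ ∃ i, i ≤ 2 ^ q ∧ (2 ^ i : ℕ) • x ∈ Ph M n q := by
  obtain ⟨ν, hν, h⟩ := h
  obtain ⟨q, hq, i, hi, h⟩ := h n
  exact ⟨q, hq, i, hi, ν, hν, h⟩

/-- On a phase the averages of the characters are at most `1 / 2 + 1 / (n + 1)`. -/
theorem norm_cavg_le_of_mem {M : ℕ → ℕ} {n q : ℕ} {x : Tor} (hx : x ∈ Ph M n q) (m : ℤ)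
    (hm : m ≠ 0) (hmn : |m| ≤ n) : ‖cavg (M q) (2 ^ q) m x‖ ≤ 1 / 2 + 1 / (n + 1) := by
  obtain ⟨ν, hν, h⟩ := hx
  have h1 := h m hmn
  have h2 := norm_half_le hν m hm
  have h3 : cavg (M q) (2 ^ q) m x = (cavg (M q) (2 ^ q) m x - ∫ y, (fourier m y : ℂ) ∂ν) +
      ∫ y, (fourier m y : ℂ) ∂ν := by ring
  rw [h3]
  refine (norm_add_le _ _).trans ?_
  linarith

/-- Powers of two preserve the measure. -/
theorem preserving_nsmul {ν : Measure Tor}
    (h2 : MeasurePreserving (fun x : Tor => (2 : ℕ) • x) ν ν) (i : ℕ) :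
    MeasurePreserving (fun x : Tor => (2 ^ i : ℕ) • x) ν ν := by
  induction i with
  | zero =>
    simp only [pow_zero, one_smul]
    exact MeasurePreserving.id ν
  | succ i ih =>
    have h4 := h2.comp ih
    have h5 : ((fun x : Tor => (2 : ℕ) • x) ∘ fun x : Tor => (2 ^ i : ℕ) • x) =
        fun x : Tor => (2 ^ (i + 1) : ℕ) • x := by
      funext x
      show (2 : ℕ) • ((2 ^ i : ℕ) • x) = (2 ^ (i + 1) : ℕ) • x
      rw [smul_smul, pow_succ']
    rwa [h5] at h4

/-- For a finitely supported invariant measure some character is trivial. -/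
theorem exists_trivial_char {ν : Measure Tor} [IsProbabilityMeasure ν]
    (h2 : MeasurePreserving (fun x : Tor => (2 : ℕ) • x) ν ν) (Z : Set Tor) (hZ : Z.Finite)
    (hν : ν Zᶜ = 0) : ∃ m : ℕ, 1 ≤ m ∧ ∀ᵐ x ∂ν, m • x = 0 := by
  obtain ⟨K, hK⟩ : ∃ K, K = hZ.toFinset.card := ⟨_, rfl⟩
  refine ⟨(2 ^ K).factorial, Nat.succ_le_of_lt (Nat.factorial_pos _), ?_⟩
  have h1 : ∀ᵐ x ∂ν, ∀ i : ℕ, (2 ^ i : ℕ) • x ∈ Z := by
    rw [ae_all_iff]
    intro i
    have h4 : ∀ᵐ x ∂ν, x ∈ Z := by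
      rw [ae_iff]
      exact hν
    exact (preserving_nsmul h2 i).quasiMeasurePreserving.ae h4
  filter_upwards [h1] with x hx
  -- pigeonhole
  have h3 : ∃ i ∈ Finset.range (K + 1), ∃ j ∈ Finset.range (K + 1), i ≠ j ∧
      (2 ^ i : ℕ) • x = (2 ^ j : ℕ) • x := by
    apply Finset.exists_ne_map_eq_of_card_lt_of_maps_to (t := hZ.toFinset)
    · rw [Finset.card_range, ← hK]
      exact Nat.lt_succ_self _
    · intro i _
      simpa using hx i
  obtain ⟨i, hi, j, hj, hij, he⟩ := h3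
  rw [Finset.mem_range] at hi hj
  have key : ∀ a b : ℕ, a < b → b ≤ K → (2 ^ a : ℕ) • x = (2 ^ b : ℕ) • x →
      (2 ^ K).factorial • x = 0 := by
    intro a b hab hb he
    have h5 : (2 ^ b - 2 ^ a : ℕ) • x = 0 := by
      have h6 : 2 ^ a ≤ 2 ^ b := Nat.pow_le_pow_right (by norm_num) hab.le
      rw [sub_nsmul _ h6, he, add_neg_cancel]
    have h7 : 2 ^ b - 2 ^ a ∣ (2 ^ K).factorial := by
      apply Nat.dvd_factorial
      · have : 2 ^ a < 2 ^ b := Nat.pow_lt_pow_right (by norm_num) hab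
        omega
      · exact (Nat.sub_le _ _).trans (Nat.pow_le_pow_right (by norm_num) hb)
    obtain ⟨c, hc⟩ := h7
    rw [hc, mul_comm, mul_smul, h5, smul_zero]
  rcases lt_or_gt_of_ne hij with h4 | h4
  · exact key i j h4 (by omega) he
  · exact key j i h4 (by omega) he.symm

/-- The averages of a trivial character. -/
theorem cavg_eq_one {m : ℕ} {x : Tor} (hx : m • x = 0) (M N : ℕ) (hM : 1 ≤ M) (hN : 1 ≤ N) :
    cavg M N m x = 1 := by
  unfold cavg
  have h1 : ∀ i k : ℕ, (fourier ((m : ℤ) * (2 ^ i * 3 ^ k)) x : ℂ) = 1 := by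
    intro i k
    rw [fourier_apply]
    have h2 : ((m : ℤ) * (2 ^ i * 3 ^ k)) • x = 0 := by
      rw [mul_comm, mul_smul, natCast_zsmul, hx, smul_zero]
    rw [h2]
    simp
  simp only [h1, Finset.sum_const, Finset.card_range, nsmul_eq_mul, mul_one]
  have h3 : (M : ℂ) ≠ 0 := by exact_mod_cast (by omega : M ≠ 0)
  have h4 : (N : ℂ) ≠ 0 := by exact_mod_cast (by omega : N ≠ 0)
  field_simp

end Pool.Agent.Helper40.LPA
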