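import Mathlib
import Pool.Agent.Helper40.LPA.Wing
import Pool.Agent.Helper40.LPA.Half
import Pool.Agent.Helper40.TMA.Exotic

/-!
# Lebesgue phases and extreme traces
-/

set_option autoImplicit false

open MeasureTheory Filter Topology Finset Helper17.FU Helper17.FUGroup Helper91.TTT
open scoped ENNReal ComplexConjugate ComplexOrder InnerProductSpace

namespace Pool.Agent.Helper40.LPA

open Helper58.FX (ft Erg T)
open Pool.Agent.Helper61.FR
open Helper75.LP hiding Tor
open Pool.Agent.Helper40.TMA (exists_measure no_atoms_of_exotic zero_of_regular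
  exists_recurrence erg_of_extreme finite_support)

variable {s2 s3 t : Equiv.Perm ℚ}

/-- The measure of an extreme trace which is not conditionally finite dimensional has no atoms. -/
theorem no_atoms_of_infinite (h2 : ∀ x : ℚ, s2 x = 2 * x) (h3 : ∀ x : ℚ, s3 x = 3 * x)
    (ht : ∀ x : ℚ, t x = x + 1) {τ : GG s2 s3 t} (hτ : (τ : Equiv.Perm ℚ) = t)
    {φ : GG s2 s3 t → ℂ} (hφ : φ ∈ Set.extremePoints ℝ (TR (GG s2 s3 t)))
    {μ : Measure Tor} [IsProbabilityMeasure μ]
    (hμ : ∀ n : ℤ, ∫ x, (fourier n x : ℂ) ∂μ = φ (τ ^ n))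
    (hfd : ¬ FiniteDimensional ℂ (Submodule.span ℂ {F : GG s2 s3 t → ℂ | ∃ n : GG s2 s3 t,
      IsTr n ∧ F = fun x => φ (n * x)})) (x : Tor) : μ {x} = 0 := by
  by_cases hΔ : φ = Set.indicator ({1} : Set (GG s2 s3 t)) (fun _ => (1 : ℂ))
  · have hz : ∀ m : ℕ, 1 ≤ m → ∫ x, (fourier (m : ℤ) x : ℂ) ∂μ = 0 := fun m hm => by
      rw [hμ]
      exact zero_of_regular ht hτ hΔ m hm
    have hvol : μ = volume := by
      apply Helper17.TranslM.eq_of_fourier
      intro n
      rcases lt_trichotomy n 0 with h | h | h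
      · have h5 := hz (-n).toNat (by omega)
        rw [show (((-n).toNat : ℕ) : ℤ) = -n by omega] at h5
        have h6 : ∫ x, (fourier n x : ℂ) ∂μ = star (∫ x, (fourier (-n) x : ℂ) ∂μ) := by
          rw [RCLike.star_def, ← integral_conj]
          refine integral_congr_ae (Eventually.of_forall fun x => ?_)
          simp only [fourier_neg, RingHomCompTriple.comp_apply, RingHom.id_apply]
        rw [h6, h5, star_zero, integral_fourier_volume n (by omega)]
      · rw [h]
        simp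
      · have h5 := hz n.toNat (by omega)
        rw [show ((n.toNat : ℕ) : ℤ) = n by omega] at h5
        rw [h5, integral_fourier_volume n (by omega)]
    rw [hvol]
    refine le_antisymm ?_ zero_le
    calc (volume : Measure Tor) {x} ≤ volume (Metric.closedBall x 0) :=
          measure_mono (by
            intro y hy
            rw [Set.mem_singleton_iff] at hy
            rw [hy]
            exact Metric.mem_closedBall_self le_rfl)
      _ = 0 := by
          rw [AddCircle.volume_closedBall]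
          simp
  · exact no_atoms_of_exotic h2 h3 ht hτ hφ hμ hΔ hfd x

/-- The measure of a conditionally finite dimensional extreme trace has finite support. -/
theorem finite_of_fd (ht : ∀ x : ℚ, t x = x + 1) {τ : GG s2 s3 t}
    (hτ : (τ : Equiv.Perm ℚ) = t) {φ : GG s2 s3 t → ℂ}
    {μ : Measure Tor} [IsProbabilityMeasure μ]
    (hμ : ∀ n : ℤ, ∫ x, (fourier n x : ℂ) ∂μ = φ (τ ^ n))
    (hfd : FiniteDimensional ℂ (Submodule.span ℂ {F : GG s2 s3 t → ℂ | ∃ n : GG s2 s3 t,
      IsTr n ∧ F = fun x => φ (n * x)})) : ∃ Z : Set Tor, Z.Finite ∧ μ Zᶜ = 0 := by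
  obtain ⟨d, c, hc, hrec⟩ := exists_recurrence hτ ht hfd
  exact finite_support μ d c hc (fun m => by
    rw [← hrec m]
    refine Finset.sum_congr rfl fun j _ => ?_
    congr 1
    exact hμ _)

/-- The summands of the single character criterion. -/
theorem not_summable_char {μ : Measure Tor} [IsProbabilityMeasure μ]
    (hm2 : MeasurePreserving (fun x : Tor => (2 : ℕ) • x) μ μ)
    (hm3 : MeasurePreserving (fun x : Tor => (3 : ℕ) • x) μ μ)
    (h0 : ∀ x, μ {x} = 0) {γ : ℝ} (hγ : γ < 3 / 2) (M : ℕ → ℕ)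
    (hM : Tendsto M atTop atTop) (hMγ : ∀ᶠ q : ℕ in atTop, (M q : ℝ) ≤ (q : ℝ) ^ γ)
    (m : ℕ) (hm : 1 ≤ m) (ε : ℝ) (hε : 0 < ε) :
    ¬ Summable fun q : ℕ => (2 ^ q / (q : ℝ) ^ γ) *
      μ.real {x | ‖cavg (M q) (2 ^ q) m x‖ ≤ 1 / 2 + ε} := by
  intro hs
  obtain ⟨k, hk⟩ := exists_nat_one_div_lt hε
  refine not_summable_gamma hm2 hm3 h0 hγ M hM hMγ (k + m) ?_
  refine Summable.of_nonneg_of_le (fun q => by positivity) (fun q => ?_) hs
  refine mul_le_mul_of_nonneg_left (measureReal_mono ?_ (measure_ne_top _ _)) (by positivity)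
  intro x hx
  have h5 := norm_cavg_le_of_mem hx (m : ℤ) (by omega) (by
    rw [Nat.abs_cast]
    push_cast
    omega)
  have h6 : (1 : ℝ) / ((k + m : ℕ) + 1) ≤ 1 / (k + 1) := by
    apply one_div_le_one_div_of_le (by positivity)
    push_cast
    have : (0 : ℝ) ≤ m := Nat.cast_nonneg m
    linarith
  show ‖cavg (M q) (2 ^ q) m x‖ ≤ 1 / 2 + ε
  linarith

/-- For a finitely supported measure some character has no small averages. -/
theorem summable_char_of_finite {μ : Measure Tor} [IsProbabilityMeasure μ]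
    (hm2 : MeasurePreserving (fun x : Tor => (2 : ℕ) • x) μ μ) (Z : Set Tor) (hZ : Z.Finite)
    (hμ : μ Zᶜ = 0) : ∃ m : ℕ, 1 ≤ m ∧ ∀ (γ : ℝ) (M : ℕ → ℕ), Tendsto M atTop atTop →
      ∀ ε : ℝ, ε < 1 / 2 → Summable fun q : ℕ => (2 ^ q / (q : ℝ) ^ γ) *
        μ.real {x | ‖cavg (M q) (2 ^ q) m x‖ ≤ 1 / 2 + ε} := by
  obtain ⟨m, hm, hae⟩ := exists_trivial_char hm2 Z hZ hμ
  refine ⟨m, hm, fun γ M hM ε hε => ?_⟩
  obtain ⟨Q, hQ⟩ := eventually_atTop.mp (hM.eventually_ge_atTop 1)
  rw [← summable_nat_add_iff Q]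
  refine summable_zero.congr fun q => ?_
  have h5 : μ {x | ‖cavg (M (q + Q)) (2 ^ (q + Q)) m x‖ ≤ 1 / 2 + ε} = 0 := by
    have h6 : ∀ᵐ x ∂μ, ¬ ‖cavg (M (q + Q)) (2 ^ (q + Q)) m x‖ ≤ 1 / 2 + ε := by
      filter_upwards [hae] with x hx
      rw [cavg_eq_one hx _ _ (hQ _ (by omega)) Nat.one_le_two_pow, norm_one]
      linarith
    rw [ae_iff] at h6
    simpa only [not_not] using h6
  rw [measureReal_def, h5]
  simp

end Pool.Agent.Helper40.LPA
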