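import Mathlib
import Pool.Agent.Helper40.LPA.Trace

/-!
# Lebesgue phases of extreme traces

`G` is the group generated by `x ↦ 2x`, `x ↦ 3x`, `x ↦ x + 1`, `τ` is the translation by one,
`φ` an extreme trace, and `μ` the probability measure on the circle with Fourier coefficients
`φ (τ ^ m)`.
-/

set_option autoImplicit false
open scoped ComplexOrder InnerProductSpace
open Filter MeasureTheory Finset Helper17.FU Helper17.FUGroup Helper91.TTT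

namespace Pool.Agent.Helper40.LPA.Final

/-- average of the character `x ↦ e^{2 π i m x}` over the points `2 ^ j 3 ^ k x`, `j < M`,
`k < N` -/
noncomputable def boxAvg (M N : ℕ) (m : ℤ) (x : AddCircle (1 : ℝ)) : ℂ :=
  (∑ j ∈ range M, ∑ k ∈ range N, (fourier (m * (2 ^ j * 3 ^ k)) x : ℂ)) / (M * N)

/-- probability measures which are at least one half of Lebesgue measure -/
def HalfLebesgue (ν : Measure (AddCircle (1 : ℝ))) : Prop :=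
  IsProbabilityMeasure ν ∧ volume ≤ (2 : ENNReal) • ν

/-- points at which the average over the box `M q` times `2 ^ q` agrees, up to `1 / (n + 1)` on the
characters of frequency at most `n`, with a probability measure above one half of Lebesgue
measure -/
def Phase (M : ℕ → ℕ) (n q : ℕ) : Set (AddCircle (1 : ℝ)) :=
  {x | ∃ ν : Measure (AddCircle (1 : ℝ)), HalfLebesgue ν ∧ ∀ m : ℤ, |m| ≤ n →
    ‖boxAvg (M q) (2 ^ q) m x - ∫ y, (fourier m y : ℂ) ∂ν‖ < 1 / (n + 1)}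

/-- the widths `M q` tend to infinity and are at most `q ^ γ` for large `q` -/
def Thin (γ : ℝ) (M : ℕ → ℕ) : Prop :=
  Tendsto M atTop atTop ∧ ∀ᶠ q : ℕ in atTop, (M q : ℝ) ≤ (q : ℝ) ^ γ

theorem thin_one : Thin 1 (fun q => q) := by
  refine ⟨tendsto_id, Eventually.of_forall fun q => ?_⟩
  rw [Real.rpow_one]

theorem result :
  ∀ (s2 s3 t : Equiv.Perm ℚ), (∀ x : ℚ, s2 x = 2 * x) → (∀ x : ℚ, s3 x = 3 * x) →
  (∀ x : ℚ, t x = x + 1) →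
  ∀ (G : Subgroup (Equiv.Perm ℚ)), G = Subgroup.closure {s2, s3, t} →
  ∀ τ : G, (τ : Equiv.Perm ℚ) = t →
  ∀ φ : G → ℂ,
    φ ∈ Set.extremePoints ℝ {ψ : G → ℂ | ψ 1 = 1 ∧ (∀ g h : G, ψ (h * g * h⁻¹) = ψ g) ∧
        ∀ (s : Finset G) (c : G → ℂ), 0 ≤ ∑ i ∈ s, ∑ j ∈ s, star (c j) * c i * ψ (j⁻¹ * i)} →
  ∃ μ : Measure (AddCircle (1 : ℝ)), IsProbabilityMeasure μ ∧
    (∀ m : ℤ, ∫ x, (fourier m x : ℂ) ∂μ = φ (τ ^ m)) ∧
  List.TFAE [
    ¬ FiniteDimensional ℂ (Submodule.span ℂ {F : G → ℂ | ∃ n : G,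
        (∃ r : ℚ, ∀ x : ℚ, (n : Equiv.Perm ℚ) x = x + r) ∧ F = fun x => φ (n * x)}),
    ∀ γ : ℝ, γ < 3 / 2 → ∀ M : ℕ → ℕ, Thin γ M → ∀ᵐ x ∂μ,
      ∃ ν : Measure (AddCircle (1 : ℝ)), HalfLebesgue ν ∧ ∀ n : ℕ, ∃ q, n ≤ q ∧ ∃ i, i ≤ 2 ^ q ∧
        ∀ m : ℤ, |m| ≤ n →
          ‖boxAvg (M q) (2 ^ q) m ((2 ^ i : ℕ) • x) - ∫ y, (fourier m y : ℂ) ∂ν‖ < 1 / (n + 1),
    ∃ M : ℕ → ℕ, ∀ n : ℕ, ∃ q : ℕ, μ (Phase M n q) ≠ 0,
    ∀ γ : ℝ, γ < 3 / 2 → ∀ M : ℕ → ℕ, Thin γ M → ∀ n : ℕ,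
      ¬ Summable fun q : ℕ => (2 ^ q / (q : ℝ) ^ γ) * μ.real (Phase M n q),
    ∀ γ : ℝ, γ < 3 / 2 → ∀ M : ℕ → ℕ, Thin γ M → ∀ m : ℕ, 1 ≤ m → ∀ ε : ℝ, 0 < ε →
      ¬ Summable fun q : ℕ => (2 ^ q / (q : ℝ) ^ γ) *
        μ.real {x | ‖boxAvg (M q) (2 ^ q) m x‖ ≤ 1 / 2 + ε},
    ∃ γ : ℝ, ∃ M : ℕ → ℕ, Tendsto M atTop atTop ∧ ∃ ε : ℝ, ε < 1 / 2 ∧ ∀ m : ℕ, 1 ≤ m →
      ¬ Summable fun q : ℕ => (2 ^ q / (q : ℝ) ^ γ) *
        μ.real {x | ‖boxAvg (M q) (2 ^ q) m x‖ ≤ 1 / 2 + ε}] := by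
  intro s2 s3 t h2 h3 ht G hG τ hτ φ hφ
  subst hG
  have hφ' : φ ∈ Set.extremePoints ℝ (TR (GG s2 s3 t)) := hφ
  obtain ⟨μ, hμp, hμ, hm2, hm3⟩ := Pool.Agent.Helper40.TMA.exists_measure h2 h3 ht hτ hφ'
  have hbox : ∀ (M N : ℕ) (m : ℤ), boxAvg M N m = Pool.Agent.Helper61.FR.cavg M N m :=
    fun _ _ _ => rfl
  have hPh : ∀ (M : ℕ → ℕ) (n q : ℕ), Phase M n q = Helper75.LP.Ph M n q := fun _ _ _ => rfl
  refine ⟨μ, hμp, hμ, ?_⟩
  have hat := fun hfd => Pool.Agent.Helper40.LPA.no_atoms_of_infinite h2 h3 ht hτ hφ' hμ hfd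
  have hE := Pool.Agent.Helper40.TMA.erg_of_extreme h2 h3 ht hτ hφ' hμ
  tfae_have 1 → 2 := by
    intro hfd γ hγ M hM
    filter_upwards [phases_ae_gamma hm2 hm3 hE (hat hfd) hγ M hM.1 hM.2] with x hx
    exact limPh_of M x hx
  tfae_have 1 → 4 := by
    intro hfd γ hγ M hM n
    exact not_summable_gamma hm2 hm3 (hat hfd) hγ M hM.1 hM.2 n
  tfae_have 1 → 5 := by
    intro hfd γ hγ M hM m hm ε hε
    exact not_summable_char hm2 hm3 (hat hfd) hγ M hM.1 hM.2 m hm ε hε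
  tfae_have 2 → 3 := by
    intro h
    have h5 := h 1 (by norm_num) (fun q => q) thin_one
    refine ⟨fun q => q, fun n => ?_⟩
    by_contra hcon
    push Not at hcon
    have h6 : ∀ᵐ x ∂μ, ∀ q i : ℕ, (2 ^ i : ℕ) • x ∉ Phase (fun q => q) n q := by
      rw [ae_all_iff]
      intro q
      rw [ae_all_iff]
      intro i
      have h7 : ∀ᵐ x ∂μ, x ∉ Phase (fun q => q) n q := measure_eq_zero_iff_ae_notMem.1 (hcon q)
      exact (preserving_nsmul hm2 i).quasiMeasurePreserving.ae h7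
    obtain ⟨x, hx1, hx2⟩ := (h5.and h6).exists
    obtain ⟨q, -, i, -, h8⟩ := of_limPh (fun q => q) x hx1 n
    exact hx2 q i h8
  tfae_have 4 → 3 := by
    intro h
    refine ⟨fun q => q, fun n => ?_⟩
    by_contra hcon
    push Not at hcon
    apply h 1 (by norm_num) (fun q => q) thin_one n
    refine summable_zero.congr fun q => ?_
    rw [measureReal_def, hcon q]
    simp
  tfae_have 3 → 1 := by
    rintro ⟨M, hM⟩ hfd
    obtain ⟨Z, hZ, hZμ⟩ := finite_of_fd ht hτ hμ hfd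
    obtain ⟨n, hn⟩ := Helper75.LP.no_phases hm2 hm3 Z hZ hZμ M
    obtain ⟨q, hq⟩ := hM n
    apply hq
    refine measure_eq_zero_iff_ae_notMem.2 ?_
    filter_upwards [hn] with x hx
    have h6 := hx q 0
    rwa [pow_zero, one_smul] at h6
  tfae_have 5 → 6 := by
    intro h
    exact ⟨1, fun q => q, tendsto_id, 1 / 4, by norm_num, fun m hm =>
      h 1 (by norm_num) (fun q => q) thin_one m hm (1 / 4) (by norm_num)⟩
  tfae_have 6 → 1 := by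
    rintro ⟨γ, M, hM, ε, hε, h⟩ hfd
    obtain ⟨Z, hZ, hZμ⟩ := finite_of_fd ht hτ hμ hfd
    obtain ⟨m, hm, hm'⟩ := summable_char_of_finite hm2 Z hZ hZμ
    exact h m hm (hm' γ M hM ε hε)
  tfae_finish

end Pool.Agent.Helper40.LPA.Final
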