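import Mathlib
import Pool.Agent.Helper40.LPA.Wing
import Pool.Agent.Helper40.LPA.Half

/-!
# Lebesgue phases: consequences for a single character
-/

set_option autoImplicit false

open MeasureTheory Finset Filter Topology

namespace Pool.Agent.Helper40.LPA

open Pool.Agent.Helper61.FR Helper75.LP Helper75.DF
open Pool.Agent.Helper17.KW (wing wing_mono wing_le wing_le_two_pow window_wing)
open Pool.Agent.Helper40.TMA (real_mul_dev)

lemma norm_avg_le_of_mem {M : ℕ → ℕ} {n q : ℕ} {x : ℝ} (hx : (x : Tor) ∈ Ph M n q) (m : ℕ)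
    (hm : 1 ≤ m) (hmn : m ≤ n) :
    ‖avg (M q) (2 ^ q) (fun y => e (m * y)) x‖ ≤ 1 / 2 + 1 / (n + 1) := by
  have h1 := norm_cavg_le_of_mem hx (m : ℤ) (by omega) (by
    rw [Nat.abs_cast]
    exact_mod_cast hmn)
  rwa [cavg_coe] at h1

lemma compl_Gd (M : ℕ → ℕ) (n q : ℕ) : (Gd M n q)ᶜ = {x : ℝ | (x : Tor) ∈ Ph M n q} := by
  ext x
  exact not_not

/-- For a measure without atoms the probabilities that the averages of a single character are at
most `1 / 2 + ε` are not summable with the weights `2 ^ q / q ^ γ`. -/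
theorem not_summable_char_real {μ : Measure ℝ} (h : Inv23 μ) (h0 : ∀ x, μ {x} = 0) {γ : ℝ}
    (hγ : γ < 3 / 2) (M : ℕ → ℕ) (hM : Tendsto M atTop atTop)
    (hMγ : ∀ᶠ q : ℕ in atTop, (M q : ℝ) ≤ (q : ℝ) ^ γ) (m : ℕ) (hm : 1 ≤ m) (ε : ℝ)
    (hε : 0 < ε) : ¬ Summable fun q : ℕ => (2 ^ q / (q : ℝ) ^ γ) *
      μ.real {x | ‖avg (M q) (2 ^ q) (fun y => e (m * y)) x‖ ≤ 1 / 2 + ε} := by
  have := h.prob
  intro hs
  obtain ⟨γ', h1, h1', hw⟩ := exists_wing hγ
  obtain ⟨q₂, hq₂⟩ := eventually_atTop.mp hMγ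
  obtain ⟨k, hk⟩ := exists_nat_one_div_lt hε
  refine false_of_summable h h0 M (wing γ') hM (window_wing h1') (wing_mono (by linarith))
    (wing_le_two_pow h1 (by linarith)) (fun n₀ => ?_) (k + m) ?_
  · obtain ⟨q₁, hq₁⟩ := hw n₀
    exact ⟨q₁ + q₂, fun q hq => (hq₁ q (by omega)).2 (M q) (hq₂ q (by omega))⟩
  · obtain ⟨q₁, hq₁⟩ := hw 0
    rw [← summable_nat_add_iff (q₁ + 1)] at hs ⊢
    refine Summable.of_nonneg_of_le (fun _ => by positivity) (fun q => ?_) hs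
    have h5 := (hq₁ (q + (q₁ + 1)) (by omega)).1
    have h6 : (0 : ℝ) < ((q + (q₁ + 1) : ℕ) : ℝ) ^ γ :=
      Real.rpow_pos_of_pos (by exact_mod_cast (by omega : 0 < q + (q₁ + 1))) _
    refine mul_le_mul (div_le_div_of_nonneg_left (by positivity) h6 h5) ?_ measureReal_nonneg
      (by positivity)
    rw [compl_Gd]
    refine measureReal_mono ?_ (measure_ne_top μ _)
    intro x hx
    have h7 := norm_avg_le_of_mem hx m hm (by omega)
    have h8 : (1 : ℝ) / ((k + m : ℕ) + 1) ≤ 1 / (k + 1) := by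
      apply one_div_le_one_div_of_le (by positivity)
      push_cast
      have : (0 : ℝ) ≤ m := Nat.cast_nonneg m
      linarith
    show ‖_‖ ≤ 1 / 2 + ε
    linarith

lemma avg_eq_mean (M N m : ℕ) (x : ℝ) : avg M N (fun y => e (m * y)) x =
    (∑ a ∈ range M, avg 1 N (fun y => e (m * y)) (2 ^ a * x)) / M := by
  unfold avg
  rw [Finset.sum_div, Finset.sum_div]
  refine Finset.sum_congr rfl fun a _ => ?_
  rw [Finset.sum_range_one]
  have h1 : ∑ k ∈ range N, e (m * (2 ^ 0 * 3 ^ k * (2 ^ a * x))) =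
      ∑ k ∈ range N, e (m * (2 ^ a * 3 ^ k * x)) := by
    refine Finset.sum_congr rfl fun k _ => ?_
    congr 2
    ring
  rw [h1, div_div]
  congr 1
  push_cast
  ring

lemma norm_avg_one_sub_le {μ : Measure ℝ} [IsProbabilityMeasure μ] (N m : ℕ) (x : ℝ) :
    ‖avg 1 N (fun y => e (m * y)) x - ∫ y, e (m * y) ∂μ‖ ≤ 2 := by
  have h1 : ‖avg 1 N (fun y => e (m * y)) x‖ ≤ 1 := by
    unfold avg
    rw [norm_div]
    rcases Nat.eq_zero_or_pos N with rfl | hN
    · simp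
    have hN0 : (0 : ℝ) < N := by exact_mod_cast hN
    rw [Finset.sum_range_one]
    have h2 : ‖((1 : ℕ) : ℂ) * N‖ = N := by simp
    rw [h2, div_le_one hN0]
    refine (norm_sum_le _ _).trans ?_
    refine (Finset.sum_le_card_nsmul _ _ 1 fun k _ => ?_).trans (by simp)
    exact (norm_e _).le
  have h2 : ‖∫ y, e (m * y) ∂μ‖ ≤ 1 := by
    refine (norm_integral_le_integral_norm _).trans ?_
    simp [norm_e]
  exact (norm_sub_le _ _).trans (by linarith)

/-- Small averages over the box force deviations of the averages over the rows. -/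
lemma real_small_le {μ : Measure ℝ} (h : Inv23 μ) (M N m : ℕ) (hM : 1 ≤ M) (c : ℝ) (hc : 0 < c)
    (hφ : 1 / 2 + c ≤ ‖∫ y, e (m * y) ∂μ‖) :
    μ.real {x | ‖avg M N (fun y => e (m * y)) x‖ ≤ 1 / 2 + c / 2} ≤
      (8 / c) * μ.real (dev μ 1 N m (c / 4)) := by
  classical
  have := h.prob
  have hM0 : (0 : ℝ) < M := by exact_mod_cast hM
  obtain ⟨B, hB⟩ : ∃ B : ℕ → Set ℝ, B = fun a => {x : ℝ | (2 : ℝ) ^ a * x ∈ dev μ 1 N m (c / 4)} :=
    ⟨_, rfl⟩
  have hBm : ∀ a, MeasurableSet (B a) := by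
    intro a
    rw [hB]
    exact (measurable_const_mul _) (measurableSet_dev μ 1 N m _)
  have hBr : ∀ a, μ.real (B a) = μ.real (dev μ 1 N m (c / 4)) := by
    intro a
    rw [hB]
    exact real_mul_dev h 1 N m _ a
  obtain ⟨S, hS⟩ : ∃ S : ℝ → ℝ, S = fun x => ∑ a ∈ range M, (B a).indicator (fun _ => (1 : ℝ)) x :=
    ⟨_, rfl⟩
  have hint : ∀ a, Integrable ((B a).indicator (fun _ => (1 : ℝ))) μ := fun a =>
    (integrable_const (1 : ℝ)).indicator (hBm a)
  have hSint : Integrable S μ := by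
    rw [hS]
    exact integrable_finsetSum _ fun a _ => hint a
  have hS0 : ∀ x, 0 ≤ S x := by
    intro x
    rw [hS]
    exact Finset.sum_nonneg fun a _ => Set.indicator_nonneg (fun _ _ => zero_le_one) x
  have hSI : ∫ x, S x ∂μ = M * μ.real (dev μ 1 N m (c / 4)) := by
    rw [hS, integral_finsetSum _ fun a _ => hint a]
    rw [Finset.sum_congr rfl fun a _ => (by
      rw [integral_indicator (hBm a)]
      simp [hBr a] : ∫ x, (B a).indicator (fun _ => (1 : ℝ)) x ∂μ =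
        μ.real (dev μ 1 N m (c / 4)))]
    rw [Finset.sum_const, Finset.card_range, nsmul_eq_mul]
  have h1 := mul_meas_ge_le_integral_of_nonneg (μ := μ) (f := S)
    (Eventually.of_forall hS0) hSint (c * M / 8)
  rw [hSI] at h1
  have hsub : {x | ‖avg M N (fun y => e (m * y)) x‖ ≤ 1 / 2 + c / 2} ⊆ {x | c * M / 8 ≤ S x} := by
    intro x hx
    have hx' : ‖avg M N (fun y => e (m * y)) x‖ ≤ 1 / 2 + c / 2 := hx
    obtain ⟨I, hI⟩ : ∃ I : ℂ, I = ∫ y, e (m * y) ∂μ := ⟨_, rfl⟩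
    rw [← hI] at hφ
    have h2 : c / 2 ≤ ‖avg M N (fun y => e (m * y)) x - I‖ := by
      have h3 : ‖I‖ ≤ ‖avg M N (fun y => e (m * y)) x‖ +
          ‖avg M N (fun y => e (m * y)) x - I‖ := by
        have h4 : I = avg M N (fun y => e (m * y)) x -
          (avg M N (fun y => e (m * y)) x - I) := by ring
        calc ‖I‖ = ‖avg M N (fun y => e (m * y)) x -
              (avg M N (fun y => e (m * y)) x - I)‖ := by rw [← h4]
          _ ≤ _ := norm_sub_le _ _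
      linarith
    have h3 : avg M N (fun y => e (m * y)) x - I =
        (∑ a ∈ range M, (avg 1 N (fun y => e (m * y)) (2 ^ a * x) - I)) / M := by
      rw [avg_eq_mean, Finset.sum_sub_distrib, Finset.sum_const, Finset.card_range, nsmul_eq_mul]
      have hM1 : (M : ℂ) ≠ 0 := by exact_mod_cast (by omega : M ≠ 0)
      rw [sub_div, mul_div_cancel_left₀ _ hM1]
    have h4 : ‖avg M N (fun y => e (m * y)) x - I‖ * M ≤
        ∑ a ∈ range M, (c / 4 + 2 * (B a).indicator (fun _ => (1 : ℝ)) x) := by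
      rw [h3, norm_div, Complex.norm_natCast, div_mul_cancel₀ _ hM0.ne']
      refine (norm_sum_le _ _).trans (Finset.sum_le_sum fun a _ => ?_)
      by_cases hxB : x ∈ B a
      · rw [Set.indicator_of_mem hxB, hI]
        have := norm_avg_one_sub_le (μ := μ) N m (2 ^ a * x)
        linarith
      · rw [Set.indicator_of_notMem hxB]
        have h5 : ¬ (c / 4 < ‖avg 1 N (fun y => e (m * y)) (2 ^ a * x) - ∫ y, e (m * y) ∂μ‖) := by
          intro h6
          apply hxB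
          rw [hB]
          exact h6
        rw [hI]
        linarith [not_lt.mp h5]
    rw [Finset.sum_add_distrib, Finset.sum_const, Finset.card_range, nsmul_eq_mul,
      ← Finset.mul_sum] at h4
    have h5 : ∑ a ∈ range M, (B a).indicator (fun _ => (1 : ℝ)) x = S x := by rw [hS]
    rw [h5] at h4
    show c * M / 8 ≤ S x
    nlinarith
  have h2 : μ.real {x | ‖avg M N (fun y => e (m * y)) x‖ ≤ 1 / 2 + c / 2} ≤
      μ.real {x | c * M / 8 ≤ S x} := measureReal_mono hsub (measure_ne_top μ _)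
  have h3 : (c * M / 8) * μ.real {x | ‖avg M N (fun y => e (m * y)) x‖ ≤ 1 / 2 + c / 2} ≤
      M * μ.real (dev μ 1 N m (c / 4)) :=
    (mul_le_mul_of_nonneg_left h2 (by positivity)).trans h1
  rw [div_mul_eq_mul_div, le_div_iff₀ hc]
  have h4 : (M : ℝ) * (μ.real {x | ‖avg M N (fun y => e (m * y)) x‖ ≤ 1 / 2 + c / 2} * c) ≤
      M * (8 * μ.real (dev μ 1 N m (c / 4))) := by linarith
  exact le_of_mul_le_mul_left h4 hM0

/-- **One character, `x ↦ 3 x` alone.**  If `μ` has no atoms and `|∫ e_m| > 1 / 2` for one `m ≥ 1`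
then the deviations of the averages of this single character under `x ↦ 3 x` are not summable with
the weights `2 ^ q / q ^ γ`, for any `γ < 3 / 2`. -/
theorem not_summable_dev_single {μ : Measure ℝ} (h : Inv23 μ) (h0 : ∀ x, μ {x} = 0)
    (m : ℕ) (hm : 1 ≤ m) (c : ℝ) (hc : 0 < c) (hφ : 1 / 2 + c ≤ ‖∫ y, e (m * y) ∂μ‖)
    {γ : ℝ} (hγ : γ < 3 / 2) :
    ¬ Summable fun q : ℕ => (2 ^ q / (q : ℝ) ^ γ) * μ.real (dev μ 1 (2 ^ q) m (c / 4)) := by
  intro hs
  obtain ⟨g, hg⟩ : ∃ g, g = max γ 1 := ⟨_, rfl⟩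
  have hg2 : g < 3 / 2 := by
    rw [hg]
    exact max_lt hγ (by norm_num)
  refine not_summable_char_real h h0 hg2 (fun q => q) tendsto_id ?_ m hm (c / 2) (by positivity) ?_
  · filter_upwards [eventually_ge_atTop 1] with q hq
    have hq1 : (1 : ℝ) ≤ q := by exact_mod_cast hq
    calc (q : ℝ) = (q : ℝ) ^ (1 : ℝ) := (Real.rpow_one _).symm
      _ ≤ (q : ℝ) ^ g := Real.rpow_le_rpow_of_exponent_le hq1 (hg ▸ le_max_right _ _)
  · have hs' := hs.mul_left (8 / c)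
    rw [← summable_nat_add_iff 1] at hs' ⊢
    refine Summable.of_nonneg_of_le (fun _ => by positivity) (fun q => ?_) hs'
    have hq1 : (1 : ℝ) ≤ ((q + 1 : ℕ) : ℝ) := by
      push_cast
      have : (0 : ℝ) ≤ q := Nat.cast_nonneg q
      linarith
    have h5 : ((q + 1 : ℕ) : ℝ) ^ γ ≤ ((q + 1 : ℕ) : ℝ) ^ g :=
      Real.rpow_le_rpow_of_exponent_le hq1 (hg ▸ le_max_left _ _)
    have h6 : (0 : ℝ) < ((q + 1 : ℕ) : ℝ) ^ γ := Real.rpow_pos_of_pos (by linarith) _
    have h7 := real_small_le h (q + 1) (2 ^ (q + 1)) m (by omega) c hc hφ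
    calc (2 ^ (q + 1) / ((q + 1 : ℕ) : ℝ) ^ g) * μ.real {x | ‖avg (q + 1) (2 ^ (q + 1))
          (fun y => e (m * y)) x‖ ≤ 1 / 2 + c / 2}
        ≤ (2 ^ (q + 1) / ((q + 1 : ℕ) : ℝ) ^ γ) *
          ((8 / c) * μ.real (dev μ 1 (2 ^ (q + 1)) m (c / 4))) := by
          refine mul_le_mul (div_le_div_of_nonneg_left (by positivity) h6 h5) h7
            measureReal_nonneg (by positivity)
      _ = _ := by ring

/-- **One character, moving averages.**  If `μ` has no atoms and `|∫ e_m| > 1 / 2` for one `m ≥ 1`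
then the averages of this character over moving thin boxes do not converge to the mean almost
everywhere. -/
theorem false_of_moving_single {μ : Measure ℝ} (h : Inv23 μ) (h0 : ∀ x, μ {x} = 0)
    (m : ℕ) (hm : 1 ≤ m) (hφ : 1 / 2 < ‖∫ y, e (m * y) ∂μ‖)
    {γ : ℝ} (hγ : γ < 3 / 2) (M : ℕ → ℕ) (hM : Tendsto M atTop atTop)
    (hMγ : ∀ᶠ q : ℕ in atTop, (M q : ℝ) ≤ (q : ℝ) ^ γ)
    (hF : ∀ᵐ x ∂μ, ∀ ε : ℝ, 0 < ε → ∃ Q : ℕ, ∀ q, Q ≤ q → ∀ i, i ≤ 2 ^ q →
      ‖avg (M q) (2 ^ q) (fun y => e (m * y)) (2 ^ i * x) - ∫ y, e (m * y) ∂μ‖ ≤ ε) : False := by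
  have := h.prob
  obtain ⟨γ', h1, h1', hw⟩ := exists_wing hγ
  obtain ⟨q₂, hq₂⟩ := eventually_atTop.mp hMγ
  obtain ⟨c, hc⟩ : ∃ c, c = ‖∫ y, e (m * y) ∂μ‖ - 1 / 2 := ⟨_, rfl⟩
  have hc0 : 0 < c := by rw [hc]; linarith
  obtain ⟨k, hk⟩ := exists_nat_one_div_lt (show 0 < c / 2 by positivity)
  obtain ⟨n, hn⟩ : ∃ n, n = k + m := ⟨_, rfl⟩
  have hkey : ∀ q (x : ℝ), ‖avg (M q) (2 ^ q) (fun y => e (m * y)) x -
      ∫ y, e (m * y) ∂μ‖ ≤ c / 4 → x ∈ Gd M n q := by
    intro q x hx hmem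
    have h7 := norm_avg_le_of_mem hmem m hm (by omega)
    have h8 : (1 : ℝ) / ((n : ℕ) + 1) ≤ 1 / (k + 1) := by
      apply one_div_le_one_div_of_le (by positivity)
      rw [hn]
      push_cast
      have : (0 : ℝ) ≤ m := Nat.cast_nonneg m
      linarith
    have h9 : ‖∫ y, e (m * y) ∂μ‖ ≤ ‖avg (M q) (2 ^ q) (fun y => e (m * y)) x‖ +
        ‖avg (M q) (2 ^ q) (fun y => e (m * y)) x - ∫ y, e (m * y) ∂μ‖ := by
      have h4 : ∫ y, e (m * y) ∂μ = avg (M q) (2 ^ q) (fun y => e (m * y)) x -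
        (avg (M q) (2 ^ q) (fun y => e (m * y)) x - ∫ y, e (m * y) ∂μ) := by ring
      calc ‖∫ y, e (m * y) ∂μ‖ = ‖avg (M q) (2 ^ q) (fun y => e (m * y)) x -
            (avg (M q) (2 ^ q) (fun y => e (m * y)) x - ∫ y, e (m * y) ∂μ)‖ := by rw [← h4]
        _ ≤ _ := norm_sub_le _ _
    linarith
  obtain ⟨E, hE⟩ : ∃ E : ℕ → Set ℝ, E = fun Q =>
    {x : ℝ | ∀ q, Q ≤ q → ∀ i, i ≤ 2 ^ q → 2 ^ i * x ∈ Gd M n q} := ⟨_, rfl⟩
  have hEm : ∀ Q, MeasurableSet (E Q) := by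
    intro Q
    have e1 : E Q = ⋂ q : ℕ, ⋂ (_ : Q ≤ q), ⋂ i : ℕ, ⋂ (_ : i ≤ 2 ^ q),
        (fun x : ℝ => 2 ^ i * x) ⁻¹' (Gd M n q) := by
      rw [hE]
      ext x
      simp only [Set.mem_ofPred_eq, Set.mem_iInter, Set.mem_preimage]
    rw [e1]
    refine MeasurableSet.iInter fun q => MeasurableSet.iInter fun _ => MeasurableSet.iInter
      fun i => MeasurableSet.iInter fun _ => ?_
    exact (measurable_const_mul _) (measurableSet_Gd M n q)
  have hanti : Antitone fun Q => (E Q)ᶜ := by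
    intro a b hab x hx hx'
    apply hx
    rw [hE] at hx' ⊢
    exact fun q hq => hx' q (hab.trans hq)
  have hinter : μ (⋂ Q, (E Q)ᶜ) = 0 := by
    rw [← compl_mem_ae_iff]
    filter_upwards [hF] with x hx
    simp only [Set.mem_compl_iff, Set.mem_iInter, not_forall, not_not]
    obtain ⟨Q, hQ⟩ := hx (c / 4) (by positivity)
    refine ⟨Q, ?_⟩
    rw [hE]
    exact fun q hq i hi => hkey q _ (hQ q hq i hi)
  have htend : Tendsto (fun Q => μ (E Q)ᶜ) atTop (𝓝 0) := by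
    rw [← hinter]
    exact tendsto_measure_iInter_atTop (fun q => (hEm q).compl.nullMeasurableSet) hanti
      ⟨0, measure_ne_top μ _⟩
  have h32 : (0 : ENNReal) < ENNReal.ofReal (1 / 32) := by
    rw [ENNReal.ofReal_pos]; norm_num
  obtain ⟨Q, hQ⟩ := (htend.eventually (gt_mem_nhds h32)).exists
  have hQr : μ.real (E Q)ᶜ ≤ 1 / 32 := by
    rw [measureReal_def]
    have := ENNReal.toReal_mono ENNReal.ofReal_ne_top hQ.le
    rwa [ENNReal.toReal_ofReal (by norm_num)] at this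
  refine false_of_past h h0 M (wing γ') hM (window_wing h1') (fun n₀ => ?_) n Q fun N =>
    past_general h (Gd M n) (measurableSet_Gd M n) (fract_mem_Gd M n) Q ?_ N
  · obtain ⟨q₁, hq₁⟩ := hw n₀
    refine ⟨q₁ + q₂, fun q hq => ?_⟩
    have h5 := (hq₁ q (by omega)).2 (M q) (hq₂ q (by omega))
    have h6 := wing_le_two_pow h1 (by linarith) q
    have h7 : 2 ^ (q + 1) = 2 * 2 ^ q := by ring
    constructor <;> omega
  · rw [hE] at hQr
    exact hQr

end Pool.Agent.Helper40.LPA
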